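import Pool.Agent.K3h88.VR.Stm

/-!
# VR brick GOOD (helper52, for helper88)
-/

set_option autoImplicit false

open Filter Topology

namespace Pool.Agent.K3h52.VR

open Pool.Agent.K3h88.VR

/-- exponentials beat squares -/
lemma exists_bound (A : ℝ) (hA : 0 ≤ A) : ∃ R₀ : ℕ, ∀ r : ℕ, R₀ ≤ r →
    (A * ((r : ℝ) + 8) + 2) ^ 2 < 2 ^ r := by
  have h := tendsto_pow_const_div_const_pow_of_one_lt 2 (r := (2 : ℝ)) (by norm_num)
  have hpos : (0 : ℝ) < 1 / (9 * A + 2) ^ 2 := by positivity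
  have hev := (h.eventually_lt_const hpos).and (eventually_ge_atTop 1)
  obtain ⟨R₀, hR⟩ := eventually_atTop.1 hev
  refine ⟨R₀, fun r hr => ?_⟩
  obtain ⟨h1, h2⟩ := hR r hr
  have h2' : (1 : ℝ) ≤ r := by exact_mod_cast h2
  have h3 : A * ((r : ℝ) + 8) + 2 ≤ (9 * A + 2) * r := by nlinarith
  have h4 : 0 ≤ A * ((r : ℝ) + 8) + 2 := by positivity
  have hp : (0 : ℝ) < 2 ^ r := by positivity
  have hq : (0 : ℝ) < (9 * A + 2) ^ 2 := by positivity
  rw [div_lt_div_iff₀ hp hq] at h1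
  calc (A * ((r : ℝ) + 8) + 2) ^ 2 ≤ ((9 * A + 2) * r) ^ 2 := pow_le_pow_left₀ h4 h3 2
    _ = (r : ℝ) ^ 2 * (9 * A + 2) ^ 2 := by ring
    _ < 1 * 2 ^ r := h1
    _ = 2 ^ r := one_mul _

/-- GOOD -/
theorem t_GOOD (h1 : S_RAND) (h2 : S_NUM1) (h3 : S_MONO) : S_GOOD := by
  intro ε hε
  set e : ℝ := min ε 1 with he
  have he0 : 0 < e := lt_min hε one_pos
  have he1 : e ≤ 1 := min_le_right _ _
  have hee : e ≤ ε := min_le_left _ _
  obtain ⟨R₀, hR⟩ := exists_bound (2 / e) (by positivity)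
  obtain ⟨D, hD⟩ := exists_nat_ge (2 / e * ((R₀ : ℝ) + 10))
  refine ⟨D, fun d n hd hn => ?_⟩
  have hd' : (D : ℝ) ≤ d := by exact_mod_cast hd
  have hd0 : (0 : ℝ) ≤ d := Nat.cast_nonneg d
  have hed : (R₀ : ℝ) + 10 ≤ e * d / 2 := by
    have : 2 / e * ((R₀ : ℝ) + 10) ≤ d := hD.trans hd'
    rw [div_mul_eq_mul_div, div_le_iff₀ he0] at this
    linarith
  have hn' : (n : ℝ) ≤ 2 * d - e * d := by
    have : e * d ≤ ε * d := mul_le_mul_of_nonneg_right hee hd0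
    linarith
  have hed0 : 0 ≤ e * d := by positivity
  obtain ⟨s, hs⟩ : ∃ s, s = (n + 1) / 2 := ⟨_, rfl⟩
  obtain ⟨t, ht⟩ : ∃ t, t = s + 5 := ⟨_, rfl⟩
  have hs1 : 2 * s ≤ n + 1 := by omega
  have hs2 : n ≤ 2 * s := by omega
  have htr : (t : ℝ) ≤ d - e * d / 2 + 11 / 2 := by
    have h5 : (2 : ℝ) * s ≤ n + 1 := by exact_mod_cast hs1
    have h6 : (t : ℝ) = s + 5 := by rw [ht]; push_cast; ring
    linarith
  have htd : t + 4 ≤ d := by
    have h5 : (t : ℝ) + 4 ≤ d := by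
      have : (0 : ℝ) ≤ R₀ := Nat.cast_nonneg _
      linarith
    exact_mod_cast h5
  obtain ⟨r, hr⟩ : ∃ r, d = t + 2 + r := Nat.exists_eq_add_of_le (by omega)
  have hrr : (r : ℝ) = d - t - 2 := by rw [hr]; push_cast; ring
  have hr0 : R₀ ≤ r := by
    have : (R₀ : ℝ) ≤ r := by rw [hrr]; linarith
    exact_mod_cast this
  have hdr : (d : ℝ) ≤ 2 / e * ((r : ℝ) + 8) := by
    rw [div_mul_eq_mul_div, le_div_iff₀ he0]
    rw [hrr]
    linarith
  have hb := hR r hr0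
  have hn2 : n ≤ 2 * d := by
    have : (n : ℝ) ≤ 2 * d := by linarith
    exact_mod_cast this
  have e1 : 2 * t - 10 = 2 * s := by omega
  have e2 : d - t - 2 = r := by omega
  have hlt : (2 * t - 10) + d * ((2 * t - 10) - d) + 1 < 2 ^ (d - t - 2) := by
    rw [e1, e2]
    have h5 : 2 * s - d ≤ d + 1 := by omega
    have h6 : 2 * s + d * (2 * s - d) + 1 ≤ (d + 2) ^ 2 := by
      have h7 := Nat.mul_le_mul_left d h5
      nlinarith
    have h8 : ((d + 2 : ℕ) : ℝ) ^ 2 < 2 ^ r := by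
      have h9 : ((d + 2 : ℕ) : ℝ) ≤ 2 / e * ((r : ℝ) + 8) + 2 := by
        push_cast
        linarith
      exact (pow_le_pow_left₀ (Nat.cast_nonneg _) h9 2).trans_lt hb
    have h10 : (d + 2) ^ 2 < 2 ^ r := by exact_mod_cast h8
    exact h6.trans_lt h10
  have hgood : Good (2 * t - 10) d :=
    h1 (2 * t - 10) d (2 ^ t) (2 ^ (d - t - 4) - 1) Nat.one_le_two_pow
      (h2 t d (by omega) htd hlt)
  exact h3 _ _ _ (by omega) hgood

end Pool.Agent.K3h52.VR
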